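import Pool.Agent.H594R2.Mey2.Graph

/-!
# Cops and robbers on strongly connected digraphs

The game on a digraph: in each round every cop, and then the robber, either stays put or moves
along an arc, in the direction of the arc. The proof is the one of the starting files
(`H594R2.Mey2.main_bound`), which work with arbitrary reflexive relations.
-/

set_option autoImplicit false

namespace Pool.Agent.Results.MP_964892_co.StronglyConnectedDigraphs

open Pool.Agent.H594R2.Mey2

/-- In the game on the digraph with the arcs `A`, the cops at `c` (it is their turn) can catch the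
robber at `r` within `m` rounds. -/
def Caught {V : Type*} (A : V → V → Prop) {ι : Type*} : ℕ → (ι → V) → V → Prop
  | 0, c, r => ∃ i, c i = r
  | m + 1, c, r => (∃ i, c i = r) ∨
      ∃ c' : ι → V, (∀ i, c i = c' i ∨ A (c i) (c' i)) ∧
        ((∃ i, c' i = r) ∨ ∀ r' : V, (r = r' ∨ A r r') → Caught A m c' r')

/-- The cop number of a digraph: the least `k` such that `k` cops have starting vertices from
which they catch the robber in finitely many rounds, whatever his starting vertex is. -/
noncomputable def copNumber {V : Type*} (A : V → V → Prop) : ℕ :=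
  sInf {k : ℕ | ∃ c : Fin k → V, ∀ r : V, ∃ m : ℕ, Caught A m c r}

theorem caught_iff {V : Type*} (A : V → V → Prop) {ι : Type*} (m : ℕ) :
    ∀ (c : ι → V) (r : V),
      Catch ⟨fun u v => u = v ∨ A u v, fun _ => Or.inl rfl⟩ m c r → Caught A m c r := by
  induction m with
  | zero => exact fun c r h => h
  | succ m ih =>
    intro c r h
    rcases h with h | ⟨c', hc, h⟩
    · exact Or.inl h
    · refine Or.inr ⟨c', hc, ?_⟩
      rcases h with h | h
      · exact Or.inl h
      · exact Or.inr fun r' hr => ih c' r' (h r' hr)

/-- Every strongly connected digraph with `n` vertices has cop number at most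
`81 √n (log n + 1)`; this many cops win from any starting vertices. -/
theorem result {V : Type*} [Fintype V] [Nonempty V] (A : V → V → Prop)
    (hA : ∀ u v : V, Relation.ReflTransGen A u v) :
    (copNumber A : ℝ) ≤ 81 * √(Fintype.card V) * (Real.log (Fintype.card V) + 1) ∧
    ∃ k : ℕ, (k : ℝ) ≤ 81 * √(Fintype.card V) * (Real.log (Fintype.card V) + 1) ∧
      ∀ c : Fin k → V, ∃ m : ℕ, ∀ r : V, Caught A m c r := by
  obtain ⟨k, hk, h⟩ := digraph_bound A hA
  have h' : ∀ c : Fin k → V, ∃ m : ℕ, ∀ r : V, Caught A m c r := by
    intro c
    obtain ⟨m, hm⟩ := h c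
    exact ⟨m, fun r => caught_iff A m c r (hm r)⟩
  refine ⟨?_, k, hk, h'⟩
  have h1 : copNumber A ≤ k := by
    apply Nat.sInf_le
    obtain ⟨m, hm⟩ := h' (fun _ => Classical.arbitrary V)
    exact ⟨fun _ => Classical.arbitrary V, fun r => ⟨m, hm r⟩⟩
  exact le_trans (by exact_mod_cast h1) hk

end Pool.Agent.Results.MP_964892_co.StronglyConnectedDigraphs
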